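import Pool.Agent.Q35.EOW.Stm
import Pool.Agent.Q241.EO.HYPR

/-! # Project EOW (helper35), job HYPRW: the hyperbola method for real heights, with weights

Weighted version of `Pool/Agent/Q241/EO/HYPR.lean` (helper241). -/

set_option autoImplicit false

namespace Pool.Agent.Q203.EOW

open Finset Function
open Pool.Agent.Q35.EO Pool.Agent.Q35.EOW
open Pool.Agent.Q241.EO (scaled le_prod_pow)

section sums

variable {Y : Type} {w : Y → ℝ}

/-- the sum of the weights over a set -/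
noncomputable def sw (w : Y → ℝ) (A : Set Y) : ℝ := ∑ᶠ y ∈ A, w y

lemma sw_eq (A : Set Y) (hA : A.Finite) : sw w A = ∑ y ∈ hA.toFinset, w y :=
  finsum_mem_eq_finite_toFinset_sum _ hA

lemma sw_nonneg (hw : ∀ y, 0 ≤ w y) (A : Set Y) : 0 ≤ sw w A :=
  finsum_nonneg fun y => finsum_nonneg fun _ => hw y

lemma sw_mono (hw : ∀ y, 0 ≤ w y) {A B : Set Y} (h : A ⊆ B) (hB : B.Finite) : sw w A ≤ sw w B := by
  rw [sw_eq A (hB.subset h), sw_eq B hB]
  exact sum_le_sum_of_subset_of_nonneg (by simpa using h) fun y _ _ => hw y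

lemma sw_union (hw : ∀ y, 0 ≤ w y) {A B : Set Y} (hA : A.Finite) (hB : B.Finite) :
    sw w (A ∪ B) ≤ sw w A + sw w B := by
  classical
  rw [sw_eq A hA, sw_eq B hB, sw_eq _ (hA.union hB)]
  have e : (hA.union hB).toFinset = hA.toFinset ∪ hB.toFinset := by
    ext y
    simp
  rw [e, ← sum_union_inter]
  exact le_add_of_nonneg_right (sum_nonneg fun y _ => hw y)

lemma sw_biUnion (hw : ∀ y, 0 ≤ w y) {κ : Type} (T : Finset κ) (A : κ → Set Y)
    (hA : ∀ k, (A k).Finite) : sw w (⋃ k ∈ T, A k) ≤ ∑ k ∈ T, sw w (A k) := by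
  classical
  induction T using Finset.induction_on with
  | empty => simp [sw]
  | insert a T ha ih =>
    rw [sum_insert ha, set_biUnion_insert]
    have h1 := sw_union hw (hA a) (Set.Finite.biUnion T.finite_toSet fun k _ => hA k)
    simp only [mem_coe] at h1
    exact h1.trans (by linarith)

lemma sw_sdiff {A B : Set Y} (h : A ⊆ B) (hB : B.Finite) : sw w B - sw w A = sw w (B \ A) := by
  classical
  rw [sw_eq A (hB.subset h), sw_eq B hB, sw_eq _ (hB.sdiff)]
  have e : (hB.sdiff (t := A)).toFinset = hB.toFinset \ (hB.subset h).toFinset := by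
    ext y
    simp
  rw [e, ← sum_sdiff (s₁ := (hB.subset h).toFinset) (s₂ := hB.toFinset) (by simpa using h)]
  ring

end sums

theorem hyprw (hHYP : S_HYP) : S_HYPRW := by
  classical
  intro ι _ _ Y S w h r R C η hcard hr hR hC hη hw _ h1 hfin hbox
  have hbox : ∀ (β : ι → ℝ) (m : ℝ), 1 ≤ m → (∀ l, m ≤ β l) →
      |sw w {y ∈ S | ∀ l, h l y ≤ β l} - R * ∏ l, β l ^ r l| ≤
        C * m ^ (-η) * ∏ l, β l ^ r l := hbox
  change Filter.Tendsto (fun B : ℝ => sw w {y ∈ S | ∏ l, h l y ^ r l ≤ B} /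
      (B * Real.log B ^ (Fintype.card ι - 1))) Filter.atTop
      (nhds (R / (Fintype.card ι - 1).factorial))
  set c : Y → ι → ℕ := fun y l => ⌈h l y⌉₊ with hc
  have hc1 : ∀ y ∈ S, ∀ l, 1 ≤ c y l := fun y hy l =>
    Nat.one_le_ceil_iff.2 (by have := h1 l y hy; linarith)
  have hcle : ∀ y l, h l y ≤ c y l := fun y l => Nat.le_ceil _
  have hclt : ∀ y ∈ S, ∀ l, (c y l : ℝ) < h l y + 1 := fun y hy l =>
    Nat.ceil_lt_add_one (by have := h1 l y hy; linarith)
  -- finiteness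
  have hfinB : ∀ B : ℝ, {y ∈ S | ∏ l, h l y ^ r l ≤ B}.Finite := by
    intro B
    refine (hfin B).subset ?_
    rintro y ⟨hy, hy2⟩
    exact ⟨hy, fun l => (le_prod_pow (fun l => h l y) r (fun l => h1 l y hy) hr l).trans hy2⟩
  have hT : ∀ T : Finset (ι → ℕ), {y ∈ S | c y ∈ T}.Finite := by
    intro T
    refine (hfin (∑ k ∈ T, ∑ l, (k l : ℝ))).subset ?_
    rintro y ⟨hy, hy2⟩
    refine ⟨hy, fun l => (hcle y l).trans ?_⟩
    have e1 : (c y l : ℝ) ≤ ∑ l, (c y l : ℝ) :=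
      single_le_sum (f := fun l => (c y l : ℝ)) (fun _ _ => Nat.cast_nonneg _) (mem_univ l)
    have e2 : ∑ l, (c y l : ℝ) ≤ ∑ k ∈ T, ∑ l, (k l : ℝ) :=
      single_le_sum (f := fun k : ι → ℕ => ∑ l, (k l : ℝ))
        (fun _ _ => sum_nonneg fun _ _ => Nat.cast_nonneg _) hy2
    exact e1.trans e2
  have hS : ∀ T : Finset (ι → ℕ), ∑ k ∈ T, (sw w {y ∈ S | c y = k}) =
      (sw w {y ∈ S | c y ∈ T}) := by
    intro T
    rw [sw_eq _ (hT T), ← sum_fiberwise_of_maps_to (g := c) (t := T) (fun y hy => by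
        have := (hT T).mem_toFinset.1 hy
        exact this.2)]
    refine sum_congr rfl fun k hk => ?_
    rw [sw_eq _ ((hT T).subset (by
      rintro y ⟨hy, hy2⟩
      exact ⟨hy, hy2 ▸ hk⟩))]
    refine sum_congr ?_ fun _ _ => rfl
    ext y
    simp only [Set.mem_ofPred_eq, mem_filter, Set.Finite.mem_toFinset]
    constructor
    · rintro ⟨hy, hy2⟩
      exact ⟨⟨hy, hy2 ▸ hk⟩, hy2⟩
    · rintro ⟨⟨hy, _⟩, hy2⟩
      exact ⟨hy, hy2⟩
  set fP : ((ι → ℕ) → Prop) → (ι → ℕ) → ℝ := fun P k =>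
    if P k then (sw w {y ∈ S | c y = k}) else 0 with hfPdef
  have hfP : ∀ (P : (ι → ℕ) → Prop) (T : Finset (ι → ℕ)), ∑ k ∈ T, fP P k =
      (sw w {y ∈ S | c y ∈ T ∧ P (c y)}) := by
    intro P T
    rw [hfPdef]
    simp only
    rw [← sum_filter, hS]
    congr 1
    ext y
    simp only [Set.mem_ofPred_eq, mem_filter]
  have hK : ∀ B : ℝ, {k : ι → ℕ | (∀ l, 1 ≤ k l) ∧ ∏ l, (k l : ℝ) ^ r l ≤ B}.Finite := by
    intro B
    refine (Set.finite_coe_iff.1 (inferInstance : Finite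
      ((Fintype.piFinset fun _ : ι => range (⌊B⌋₊ + 1) : Finset (ι → ℕ)) : Set (ι → ℕ)))).subset ?_
    rintro k ⟨hk, hk2⟩
    rw [mem_coe, Fintype.mem_piFinset]
    intro l
    rw [mem_range, Nat.lt_succ_iff]
    refine Nat.le_floor ?_
    exact (le_prod_pow (fun l => (k l : ℝ)) r (fun l => by exact_mod_cast hk l) hr l).trans hk2
  have hsum : ∀ (P : (ι → ℕ) → Prop) (B : ℝ),
      ∑ᶠ k ∈ {k : ι → ℕ | (∀ l, 1 ≤ k l) ∧ ∏ l, (k l : ℝ) ^ r l ≤ B}, fP P k =
      (sw w {y ∈ S | ∏ l, (c y l : ℝ) ^ r l ≤ B ∧ P (c y)}) := by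
    intro P B
    rw [finsum_mem_eq_finite_toFinset_sum _ (hK B), hfP]
    congr 1
    ext y
    simp only [Set.mem_ofPred_eq, Set.Finite.mem_toFinset]
    constructor
    · rintro ⟨hy, ⟨_, h3⟩, h4⟩
      exact ⟨hy, h3, h4⟩
    · rintro ⟨hy, h3, h4⟩
      exact ⟨hy, ⟨hc1 y hy, h3⟩, h4⟩
  have hfP0 : ∀ P k, 0 ≤ fP P k := by
    intro P k
    rw [hfPdef]
    simp only
    split_ifs
    · exact sw_nonneg hw _
    · exact le_rfl
  -- boxes
  have hboxset : ∀ b : ι → ℕ, {y ∈ S | c y ∈ Fintype.piFinset fun l => Icc 1 (b l)} =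
      {y ∈ S | ∀ l, h l y ≤ (b l : ℝ)} := by
    intro b
    ext y
    simp only [Set.mem_ofPred_eq, Fintype.mem_piFinset, mem_Icc]
    constructor
    · rintro ⟨hy, h2⟩
      exact ⟨hy, fun l => Nat.ceil_le.1 (h2 l).2⟩
    · rintro ⟨hy, h2⟩
      exact ⟨hy, fun l => ⟨hc1 y hy l, Nat.ceil_le.2 (h2 l)⟩⟩
  have hgen : ∀ L : ℕ, 1 ≤ L → Filter.Tendsto (fun B : ℝ =>
      (sw w {y ∈ S | ∏ l, (c y l : ℝ) ^ r l ≤ B ∧ ∀ l, L < c y l}) /
      (B * Real.log B ^ (Fintype.card ι - 1))) Filter.atTop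
      (nhds (R / (Fintype.card ι - 1).factorial)) := by
    intro L hL
    have hmain := hHYP ι r (fP fun k => ∀ l, L < k l) R (min η 1)
      (C + Fintype.card ι * ((R + C) * (L : ℝ) ^ (∑ l, r l))) hcard hr (hfP0 _) (lt_min hη one_pos)
      (by positivity) ?_
    · simp_rw [hsum] at hmain
      exact hmain
    intro b m hm hb
    have hb1 : ∀ l, 1 ≤ b l := fun l => hm.trans (hb l)
    have hmR : (1 : ℝ) ≤ m := by exact_mod_cast hm
    have hLR : (1 : ℝ) ≤ L := by exact_mod_cast hL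
    have hbR : ∀ l, (1 : ℝ) ≤ b l := fun l => by exact_mod_cast hb1 l
    set Pb : ℝ := ∏ l, (b l : ℝ) ^ r l with hPb
    have hPb0 : 0 ≤ Pb := by rw [hPb]; positivity
    have e1 := hbox (fun l => (b l : ℝ)) m hmR (fun l => by exact_mod_cast hb l)
    rw [hfP]
    -- the complement
    have e2 : (sw w {y ∈ S | ∀ l, h l y ≤ (b l : ℝ)}) ≤
        (sw w {y ∈ S | (c y ∈ Fintype.piFinset fun l => Icc 1 (b l)) ∧ ∀ l, L < c y l}) +
        ∑ l₀ : ι, (sw w {y ∈ S | ∀ l, h l y ≤ (Function.update (fun l => (b l : ℝ)) l₀ (min (L : ℝ) (b l₀))) l}) := by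
      have hsub : {y ∈ S | ∀ l, h l y ≤ (b l : ℝ)} ⊆
          {y ∈ S | (c y ∈ Fintype.piFinset fun l => Icc 1 (b l)) ∧ ∀ l, L < c y l} ∪
          ⋃ l₀ ∈ (univ : Finset ι), {y ∈ S | ∀ l, h l y ≤ (Function.update (fun l => (b l : ℝ)) l₀ (min (L : ℝ) (b l₀))) l} := by
        intro y hy
        by_cases hLy : ∀ l, L < c y l
        · left
          rw [← hboxset] at hy
          exact ⟨hy.1, hy.2, hLy⟩
        · right
          push Not at hLy
          obtain ⟨l₀, hl₀⟩ := hLy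
          rw [Set.mem_iUnion₂]
          refine ⟨l₀, mem_univ _, hy.1, fun l => ?_⟩
          by_cases hl : l = l₀
          · subst hl
            rw [Function.update_self]
            refine le_min ?_ (hy.2 l)
            exact (hcle y l).trans (by exact_mod_cast hl₀)
          · rw [Function.update_of_ne hl]
            exact hy.2 l
      have hfin2 : ∀ l₀ : ι, {y ∈ S | ∀ l, h l y ≤ (Function.update (fun l => (b l : ℝ)) l₀ (min (L : ℝ) (b l₀))) l}.Finite := by
        intro l₀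
        refine (hfin (∑ l, (b l : ℝ))).subset ?_
        rintro y ⟨hy, hy2⟩
        refine ⟨hy, fun l => (hy2 l).trans ?_⟩
        have hbl : (b l : ℝ) ≤ ∑ l, (b l : ℝ) :=
          single_le_sum (f := fun l => (b l : ℝ)) (fun _ _ => Nat.cast_nonneg _) (mem_univ l)
        by_cases hl : l = l₀
        · subst hl
          rw [Function.update_self]
          exact (min_le_right _ _).trans hbl
        · rw [Function.update_of_ne hl]
          exact hbl
      have hfin3 : {y ∈ S | (c y ∈ Fintype.piFinset fun l => Icc 1 (b l)) ∧ ∀ l, L < c y l}.Finite :=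
        (hT (Fintype.piFinset fun l => Icc 1 (b l))).subset fun y hy => ⟨hy.1, hy.2.1⟩
      have h4 := sw_mono hw hsub (hfin3.union (Set.Finite.biUnion (univ : Finset ι).finite_toSet fun l₀ _ => hfin2 l₀))
      have h5 := sw_union hw hfin3 (Set.Finite.biUnion (univ : Finset ι).finite_toSet fun l₀ _ => hfin2 l₀)
      have h6 := sw_biUnion hw (univ : Finset ι) _ hfin2
      exact h4.trans (h5.trans (add_le_add le_rfl h6))
    have e3 : ∀ l₀ : ι, (sw w {y ∈ S | ∀ l, h l y ≤ (Function.update (fun l => (b l : ℝ)) l₀ (min (L : ℝ) (b l₀))) l}) ≤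
        (R + C) * (L : ℝ) ^ (∑ l, r l) * (m : ℝ)⁻¹ * Pb := by
      intro l₀
      have h4 := hbox (Function.update (fun l => (b l : ℝ)) l₀ (min (L : ℝ) (b l₀))) 1 le_rfl (by
        intro l
        by_cases hl : l = l₀
        · subst hl
          rw [Function.update_self]
          exact le_min hLR (hbR l)
        · rw [Function.update_of_ne hl]
          exact hbR l)
      rw [Real.one_rpow, mul_one] at h4
      have h5 := (abs_le.1 h4).2
      have h6 : ∏ l, (Function.update (fun l => (b l : ℝ)) l₀ (min (L : ℝ) (b l₀))) l ^ r l ≤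
          (L : ℝ) ^ (∑ l, r l) * (m : ℝ)⁻¹ * Pb := by
        rw [hPb, ← mul_prod_erase univ _ (mem_univ l₀), ← mul_prod_erase univ (fun l => (b l : ℝ) ^ r l) (mem_univ l₀),
          Function.update_self]
        have h7 : ∏ l ∈ univ.erase l₀, (Function.update (fun l => (b l : ℝ)) l₀ (min (L : ℝ) (b l₀))) l ^ r l =
            ∏ l ∈ univ.erase l₀, (b l : ℝ) ^ r l := by
          refine prod_congr rfl fun l hl => ?_
          rw [Function.update_of_ne (ne_of_mem_erase hl)]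
        rw [h7, ← mul_assoc]
        refine mul_le_mul_of_nonneg_right ?_ (prod_nonneg fun l _ => by positivity)
        have h8 : min (L : ℝ) (b l₀) ^ r l₀ ≤ (L : ℝ) ^ r l₀ :=
          pow_le_pow_left₀ (le_min (by positivity) (by positivity)) (min_le_left _ _) _
        have h9 : (L : ℝ) ^ r l₀ ≤ (L : ℝ) ^ (∑ l, r l) :=
          pow_le_pow_right₀ hLR (single_le_sum (f := r) (fun _ _ => Nat.zero_le _) (mem_univ l₀))
        have h10 : 1 ≤ (m : ℝ)⁻¹ * (b l₀ : ℝ) ^ r l₀ := by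
          rw [inv_mul_eq_div, le_div_iff₀ (by linarith), one_mul]
          have : (b l₀ : ℝ) ≤ (b l₀ : ℝ) ^ r l₀ := le_self_pow₀ (hbR l₀) (by have := hr l₀; omega)
          exact le_trans (by exact_mod_cast hb l₀) this
        have h11 : 0 ≤ (L : ℝ) ^ (∑ l, r l) := by positivity
        calc _ ≤ (L : ℝ) ^ (∑ l, r l) * 1 := by rw [mul_one]; exact h8.trans h9
          _ ≤ (L : ℝ) ^ (∑ l, r l) * ((m : ℝ)⁻¹ * (b l₀ : ℝ) ^ r l₀) := mul_le_mul_of_nonneg_left h10 h11
          _ = _ := by ring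
      have h12 : 0 ≤ R + C := by linarith
      nlinarith [mul_le_mul_of_nonneg_left h6 h12]
    have e4 : (sw w {y ∈ S | (c y ∈ Fintype.piFinset fun l => Icc 1 (b l)) ∧ ∀ l, L < c y l}) ≤
        (sw w {y ∈ S | ∀ l, h l y ≤ (b l : ℝ)}) := by
      refine sw_mono hw ?_ ?_
      · intro y hy
        rw [← hboxset]
        exact ⟨hy.1, hy.2.1⟩
      · rw [← hboxset]
        exact hT _
    have e5 : ∑ l₀ : ι, (sw w {y ∈ S | ∀ l, h l y ≤ (Function.update (fun l => (b l : ℝ)) l₀ (min (L : ℝ) (b l₀))) l}) ≤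
        Fintype.card ι * ((R + C) * (L : ℝ) ^ (∑ l, r l) * (m : ℝ)⁻¹ * Pb) := by
      refine (sum_le_sum fun l₀ _ => e3 l₀).trans (le_of_eq ?_)
      rw [sum_const, nsmul_eq_mul, card_univ]
    have e6 : (m : ℝ) ^ (-η) ≤ (m : ℝ) ^ (-(min η 1)) :=
      Real.rpow_le_rpow_of_exponent_le hmR (neg_le_neg (min_le_left _ _))
    have e7 : (m : ℝ)⁻¹ ≤ (m : ℝ) ^ (-(min η 1)) := by
      rw [← Real.rpow_neg_one]
      exact Real.rpow_le_rpow_of_exponent_le hmR (neg_le_neg (min_le_right _ _))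
    have e8 : C * (m : ℝ) ^ (-η) * Pb ≤ C * (m : ℝ) ^ (-(min η 1)) * Pb :=
      mul_le_mul_of_nonneg_right (mul_le_mul_of_nonneg_left e6 hC) hPb0
    have e9 : (Fintype.card ι : ℝ) * ((R + C) * (L : ℝ) ^ (∑ l, r l) * (m : ℝ)⁻¹ * Pb) ≤
        (Fintype.card ι : ℝ) * ((R + C) * (L : ℝ) ^ (∑ l, r l)) * (m : ℝ) ^ (-(min η 1)) * Pb := by
      have h12 : 0 ≤ (Fintype.card ι : ℝ) * ((R + C) * (L : ℝ) ^ (∑ l, r l)) := by positivity
      have := mul_le_mul_of_nonneg_right (mul_le_mul_of_nonneg_left e7 h12) hPb0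
      calc _ = (Fintype.card ι : ℝ) * ((R + C) * (L : ℝ) ^ (∑ l, r l)) * (m : ℝ)⁻¹ * Pb := by ring
        _ ≤ _ := this
    rw [abs_le] at e1 ⊢
    obtain ⟨e1a, e1b⟩ := e1
    have e10 : 0 ≤ (Fintype.card ι : ℝ) * ((R + C) * (L : ℝ) ^ (∑ l, r l) * (m : ℝ)⁻¹ * Pb) := by positivity
    have e11 : (C + (Fintype.card ι : ℝ) * ((R + C) * (L : ℝ) ^ (∑ l, r l))) * (m : ℝ) ^ (-(min η 1)) * Pb =
      C * (m : ℝ) ^ (-(min η 1)) * Pb + (Fintype.card ι : ℝ) * ((R + C) * (L : ℝ) ^ (∑ l, r l)) * (m : ℝ) ^ (-(min η 1)) * Pb := by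
      ring
    rw [e11]
    constructor
    · linarith
    · linarith
  have hf : Filter.Tendsto (fun B : ℝ => (sw w {y ∈ S | ∏ l, (c y l : ℝ) ^ r l ≤ B}) /
      (B * Real.log B ^ (Fintype.card ι - 1))) Filter.atTop
      (nhds (R / (Fintype.card ι - 1).factorial)) := by
    have hmain := hHYP ι r (fP fun _ => True) R η C hcard hr (hfP0 _) hη hC ?_
    · simp_rw [hsum, and_true] at hmain
      exact hmain
    intro b m hm hb
    rw [hfP]
    simp only [and_true]
    rw [hboxset]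
    exact hbox (fun l => (b l : ℝ)) m (by exact_mod_cast hm) (fun l => by exact_mod_cast hb l)
  set A : ℝ := R / (Fintype.card ι - 1).factorial with hA
  have hA0 : 0 ≤ A := by rw [hA]; positivity
  set ρ := ∑ l, r l with hρ
  have hcfin : ∀ B : ℝ, {y ∈ S | ∏ l, (c y l : ℝ) ^ r l ≤ B}.Finite := by
    intro B
    refine (hfinB B).subset ?_
    rintro y ⟨hy, hy2⟩
    refine ⟨hy, le_trans (prod_le_prod (fun l _ => ?_) fun l _ => ?_) hy2⟩
    · have := h1 l y hy
      positivity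
    · exact pow_le_pow_left₀ (by have := h1 l y hy; linarith) (hcle y l) _
  rw [tendsto_order]
  constructor
  · intro a ha
    filter_upwards [(tendsto_order.1 hf).1 a ha, Filter.eventually_gt_atTop 1] with B hB hB1
    refine lt_of_lt_of_le hB ?_
    have hlog : 0 < Real.log B := Real.log_pos hB1
    refine div_le_div_of_nonneg_right ?_ (by positivity)
    refine sw_mono hw ?_ (hfinB B)
    rintro y ⟨hy, hy2⟩
    refine ⟨hy, le_trans (prod_le_prod (fun l _ => ?_) fun l _ => ?_) hy2⟩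
    · have := h1 l y hy
      positivity
    · exact pow_le_pow_left₀ (by have := h1 l y hy; linarith) (hcle y l) _
  · intro a ha
    -- choice of `L`
    have hlim : Filter.Tendsto (fun L : ℕ => A * (1 + 1 / (L : ℝ)) ^ ρ) Filter.atTop (nhds A) := by
      have h2 := ((tendsto_one_div_atTop_nhds_zero_nat (𝕜 := ℝ)).const_add 1).pow ρ
      have h3 := h2.const_mul A
      simpa using h3
    obtain ⟨L, hL1, hL2⟩ := (((tendsto_order.1 hlim).2 a ha).and (Filter.eventually_ge_atTop 1)).exists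
    have hLR : (1 : ℝ) ≤ L := by exact_mod_cast hL2
    set κ : ℝ := (1 + 1 / (L : ℝ)) ^ ρ with hκ
    have hκ0 : 0 < κ := by rw [hκ]; positivity
    have hU1 := scaled _ _ A κ hκ0 hf
    have hU2 := scaled _ _ (A - A) ((2 : ℝ) ^ ρ) (by positivity) (by
      have := hf.sub (hgen L hL2)
      refine this.congr fun B => ?_
      exact (sub_div ((sw w {y ∈ S | ∏ l, (c y l : ℝ) ^ r l ≤ B}))
        ((sw w {y ∈ S | ∏ l, (c y l : ℝ) ^ r l ≤ B ∧ ∀ l, L < c y l})) _).symm)
    have hU := hU1.add hU2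
    rw [sub_self, zero_mul, add_zero] at hU
    filter_upwards [(tendsto_order.1 hU).2 a hL1, Filter.eventually_gt_atTop 1] with B hB hB1
    refine lt_of_le_of_lt ?_ hB
    have hlog : 0 < Real.log B := Real.log_pos hB1
    rw [← add_div]
    refine div_le_div_of_nonneg_right ?_ (by positivity)
    have hdiff : (sw w {y ∈ S | ∏ l, (c y l : ℝ) ^ r l ≤ (2 : ℝ) ^ ρ * B}) -
        (sw w {y ∈ S | ∏ l, (c y l : ℝ) ^ r l ≤ (2 : ℝ) ^ ρ * B ∧ ∀ l, L < c y l}) =
        (sw w {y ∈ S | ∏ l, (c y l : ℝ) ^ r l ≤ (2 : ℝ) ^ ρ * B ∧ ¬ ∀ l, L < c y l}) := by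
      have hsub : {y ∈ S | ∏ l, (c y l : ℝ) ^ r l ≤ (2 : ℝ) ^ ρ * B ∧ ∀ l, L < c y l} ⊆
          {y ∈ S | ∏ l, (c y l : ℝ) ^ r l ≤ (2 : ℝ) ^ ρ * B} := fun y hy => ⟨hy.1, hy.2.1⟩
      have h3 : {y ∈ S | ∏ l, (c y l : ℝ) ^ r l ≤ (2 : ℝ) ^ ρ * B} \
          {y ∈ S | ∏ l, (c y l : ℝ) ^ r l ≤ (2 : ℝ) ^ ρ * B ∧ ∀ l, L < c y l} =
          {y ∈ S | ∏ l, (c y l : ℝ) ^ r l ≤ (2 : ℝ) ^ ρ * B ∧ ¬ ∀ l, L < c y l} := by
        ext y
        simp only [Set.mem_sdiff, Set.mem_ofPred_eq]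
        tauto
      rw [sw_sdiff hsub (hcfin _), h3]
    rw [hdiff]
    have hsub : {y ∈ S | ∏ l, h l y ^ r l ≤ B} ⊆ {y ∈ S | ∏ l, (c y l : ℝ) ^ r l ≤ κ * B} ∪
        {y ∈ S | ∏ l, (c y l : ℝ) ^ r l ≤ (2 : ℝ) ^ ρ * B ∧ ¬ ∀ l, L < c y l} := by
      rintro y ⟨hy, hy2⟩
      by_cases hLy : ∀ l, L < c y l
      · left
        refine ⟨hy, ?_⟩
        calc ∏ l, (c y l : ℝ) ^ r l ≤ ∏ l, ((1 + 1 / (L : ℝ)) * h l y) ^ r l := by
              refine prod_le_prod (fun l _ => by positivity) fun l _ => ?_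
              refine pow_le_pow_left₀ (Nat.cast_nonneg _) ?_ _
              have h5 : (L : ℝ) < h l y := by
                by_contra hcon
                push Not at hcon
                have := Nat.ceil_le.2 hcon
                exact absurd (hLy l) (by simpa [hc] using this)
              have h6 : 1 ≤ 1 / (L : ℝ) * h l y := by
                rw [one_div, inv_mul_eq_div, le_div_iff₀ (by linarith), one_mul]
                exact h5.le
              have := hclt y hy l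
              nlinarith
          _ = κ * ∏ l, h l y ^ r l := by
              simp_rw [mul_pow]
              rw [prod_mul_distrib, prod_pow_eq_pow_sum]
          _ ≤ κ * B := mul_le_mul_of_nonneg_left hy2 hκ0.le
      · right
        refine ⟨hy, ?_, hLy⟩
        calc ∏ l, (c y l : ℝ) ^ r l ≤ ∏ l, (2 * h l y) ^ r l := by
              refine prod_le_prod (fun l _ => by positivity) fun l _ => ?_
              refine pow_le_pow_left₀ (Nat.cast_nonneg _) ?_ _
              have := hclt y hy l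
              have := h1 l y hy
              linarith
          _ = (2 : ℝ) ^ ρ * ∏ l, h l y ^ r l := by
              simp_rw [mul_pow]
              rw [prod_mul_distrib, prod_pow_eq_pow_sum]
          _ ≤ (2 : ℝ) ^ ρ * B := mul_le_mul_of_nonneg_left hy2 (by positivity)
    have hf8 : {y ∈ S | ∏ l, (c y l : ℝ) ^ r l ≤ (2 : ℝ) ^ ρ * B ∧ ¬ ∀ l, L < c y l}.Finite :=
      (hcfin ((2 : ℝ) ^ ρ * B)).subset fun y hy => ⟨hy.1, hy.2.1⟩
    have h7 := sw_mono hw hsub ((hcfin _).union hf8)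
    exact h7.trans (sw_union hw (hcfin _) hf8)

end Pool.Agent.Q203.EOW
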